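import Mathlib
import Pool.Agent.H47.CP.Defs

/-! # Local topology of the strata `relB I` (for MP_7acde3_gt) -/

set_option autoImplicit false

namespace Pool.H50.CP

open Pool.H47.CP

/-- the quotient map -/
noncomputable def qm (v : {v : ZMod 5 → ℂ // v ≠ 0}) : CP4 := CP4.mk v.1 v.2

theorem isQuotientMap_qm : Topology.IsQuotientMap qm :=
  (isQuotientMap_quotient_mk' : Topology.IsQuotientMap
    (fun v : {v : ZMod 5 → ℂ // v ≠ 0} =>
      (Quotient.mk (projectivizationSetoid ℂ (ZMod 5 → ℂ)) v)))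

theorem continuous_qm : Continuous qm := isQuotientMap_qm.continuous

/-- the coordinates of the chosen representative are a nonzero multiple of the given ones -/
theorem rep_mk (v : ZMod 5 → ℂ) (hv : v ≠ 0) :
    ∃ c : ℂ, c ≠ 0 ∧ ∀ j, (CP4.mk v hv).rep j = c * v j := by
  obtain ⟨a, ha⟩ := Projectivization.exists_smul_eq_mk_rep ℂ v hv
  refine ⟨(a : ℂ), a.ne_zero, fun j => ?_⟩
  have := congrFun ha j
  rw [Pi.smul_apply] at this
  show (Projectivization.mk ℂ v hv).rep j = _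
  rw [← this]
  rfl

theorem rep_ne_zero (p : CP4) : p.rep ≠ 0 := Projectivization.rep_nonzero _

theorem mk_rep (p : CP4) : CP4.mk p.rep (rep_ne_zero p) = p := Projectivization.mk_rep _

theorem mem_B_mk (I : Finset (ZMod 5)) (v : ZMod 5 → ℂ) (hv : v ≠ 0) :
    CP4.mk v hv ∈ B I ↔ ∀ i ∈ I, ∀ j, ‖v j‖ ≤ ‖v i‖ := by
  obtain ⟨c, hc, h⟩ := rep_mk v hv
  have hc' : 0 < ‖c‖ := norm_pos_iff.2 hc
  show (∀ i ∈ I, ∀ j, ‖(CP4.mk v hv).rep j‖ ≤ ‖(CP4.mk v hv).rep i‖) ↔ _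
  simp only [h, norm_mul]
  constructor
  · intro H i hi j
    exact le_of_mul_le_mul_left (H i hi j) hc'
  · intro H i hi j
    exact mul_le_mul_of_nonneg_left (H i hi j) hc'.le

theorem mk_eq_mk_of_smul (v w : ZMod 5 → ℂ) (hv : v ≠ 0) (hw : w ≠ 0) (c : ℂ)
    (h : ∀ j, v j = c * w j) : CP4.mk v hv = CP4.mk w hw := by
  have hc : c ≠ 0 := by
    rintro rfl
    apply hv
    funext j
    rw [h j, zero_mul]
    rfl
  refine (Projectivization.mk_eq_mk_iff' ℂ v w hv hw).2 ⟨c, ?_⟩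
  funext j
  rw [h j]
  rfl

/-- positivity of the maximal coordinates -/
theorem pos_of_max (v : ZMod 5 → ℂ) (hv : v ≠ 0) (i : ZMod 5) (h : ∀ j, ‖v j‖ ≤ ‖v i‖) :
    0 < ‖v i‖ := by
  by_contra hn
  apply hv
  funext j
  have h1 := h j
  have h2 : ‖v j‖ ≤ 0 := h1.trans (not_lt.1 hn)
  exact norm_le_zero_iff.1 h2

/-- membership in `relB I` in coordinates -/
theorem mem_relB_of (I : Finset (ZMod 5)) (i0 : ZMod 5) (_hi0 : i0 ∈ I) (v : ZMod 5 → ℂ) (hv : v ≠ 0)
    (h1 : ∀ i ∈ I, ‖v i‖ = ‖v i0‖) (h2 : ∀ l, l ∉ I → ‖v l‖ < ‖v i0‖) :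
    CP4.mk v hv ∈ relB I := by
  refine ⟨?_, ?_⟩
  · rw [mem_B_mk]
    intro i hi j
    rw [h1 i hi]
    by_cases hj : j ∈ I
    · rw [h1 j hj]
    · exact (h2 j hj).le
  · intro l hl hB
    rw [mem_B_mk] at hB
    have := hB l (Finset.mem_singleton_self l) i0
    exact absurd (h2 l hl) (not_lt.2 this)

theorem relB_mk (I : Finset (ZMod 5)) (i0 : ZMod 5) (hi0 : i0 ∈ I) (v : ZMod 5 → ℂ) (hv : v ≠ 0)
    (h : CP4.mk v hv ∈ relB I) :
    (∀ i ∈ I, ‖v i‖ = ‖v i0‖) ∧ (∀ l, l ∉ I → ‖v l‖ < ‖v i0‖) := by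
  obtain ⟨h1, h2⟩ := h
  rw [mem_B_mk] at h1
  refine ⟨fun i hi => le_antisymm (h1 i0 hi0 i) (h1 i hi i0), fun l hl => ?_⟩
  by_contra hn
  rw [not_lt] at hn
  apply h2 l hl
  rw [mem_B_mk]
  intro i hi j
  rw [Finset.mem_singleton] at hi
  subst hi
  exact (h1 i0 hi0 j).trans hn

/-- shrinking the coordinates outside `I` -/
noncomputable def shr (I : Finset (ZMod 5)) (v : ZMod 5 → ℂ) (t : ℝ) : ZMod 5 → ℂ :=
  fun j => if j ∈ I then v j else ((1 - t : ℝ) : ℂ) * v j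

theorem shr_ne (I : Finset (ZMod 5)) (i0 : ZMod 5) (hi0 : i0 ∈ I) (v : ZMod 5 → ℂ)
    (hv : 0 < ‖v i0‖) (t : ℝ) : shr I v t ≠ 0 := by
  intro h
  have := congrFun h i0
  rw [shr, if_pos hi0] at this
  rw [this] at hv
  simp at hv

theorem t1 : T1Stmt := by
  intro I hI p hp
  obtain ⟨i0, hi0⟩ := hI
  set v := p.rep with hvdef
  have hv : v ≠ 0 := rep_ne_zero p
  have hpv : CP4.mk v hv = p := mk_rep p
  rw [← hpv, mem_B_mk] at hp
  have hpos : 0 < ‖v i0‖ := pos_of_max v hv i0 (hp i0 hi0)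
  let γ : ℝ → CP4 := fun t => qm ⟨shr I v t, shr_ne I i0 hi0 v hpos t⟩
  have hγ : Continuous γ := by
    refine continuous_qm.comp (Continuous.subtype_mk ?_ _)
    refine continuous_pi fun j => ?_
    by_cases hj : j ∈ I
    · have : (fun t : ℝ => shr I v t j) = fun _ => v j := by
        funext t
        rw [shr, if_pos hj]
      rw [this]
      exact continuous_const
    · have : (fun t : ℝ => shr I v t j) = fun t => ((1 - t : ℝ) : ℂ) * v j := by
        funext t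
        rw [shr, if_neg hj]
      rw [this]
      exact (Complex.continuous_ofReal.comp (continuous_const.sub continuous_id)).mul
        continuous_const
  have h0 : γ 0 = p := by
    rw [← hpv]
    show CP4.mk _ _ = CP4.mk _ _
    refine mk_eq_mk_of_smul _ _ _ _ 1 fun j => ?_
    show shr I v 0 j = 1 * v j
    by_cases hj : j ∈ I
    · rw [shr, if_pos hj, one_mul]
    · rw [shr, if_neg hj]
      simp
  have hcl : (0 : ℝ) ∈ closure (Set.Ioo (0 : ℝ) 1) := by
    rw [closure_Ioo (by norm_num)]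
    exact ⟨le_rfl, zero_le_one⟩
  have hmaps : Set.MapsTo γ (Set.Ioo (0 : ℝ) 1) (relB I) := by
    intro t ht
    refine mem_relB_of I i0 hi0 _ _ ?_ ?_
    · intro i hi
      show ‖shr I v t i‖ = ‖shr I v t i0‖
      rw [shr, if_pos hi, shr, if_pos hi0]
      exact le_antisymm (hp i0 hi0 i) (hp i hi i0)
    · intro l hl
      show ‖shr I v t l‖ < ‖shr I v t i0‖
      rw [shr, if_neg hl, shr, if_pos hi0, norm_mul, Complex.norm_real, Real.norm_eq_abs,
        abs_of_pos (by linarith [ht.2])]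
      have h1 := hp i0 hi0 l
      have h2 : (1 - t) * ‖v l‖ ≤ (1 - t) * ‖v i0‖ :=
        mul_le_mul_of_nonneg_left h1 (by linarith [ht.2])
      have h3 : (1 - t) * ‖v i0‖ < ‖v i0‖ := by nlinarith [ht.1]
      linarith
  have := map_mem_closure hγ hcl hmaps
  rwa [h0] at this

end Pool.H50.CP
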