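import Mathlib
import Pool.Agent.H47.CP.Defs
import Pool.Agent.H50.CP.T1

/-! # Local connectivity of the strata `relB I` (for MP_7acde3_gt) -/

set_option autoImplicit false

namespace Pool.H50.CP

open Pool.H47.CP

/-- short arcs are connected -/
theorem arc_preconnected (b : ℂ) (hb : ‖b‖ = 1) (e : ℝ) (he0 : 0 < e) (he : e ≤ 1) :
    IsPreconnected {w : ℂ | ‖w‖ = 1 ∧ ‖w - b‖ < e} := by
  have hk : 0 ≤ 1 - e ^ 2 / 2 := by nlinarith
  -- the cone
  set C : Set ℂ := {w | (1 - e ^ 2 / 2) * ‖w‖ < (w * (starRingEnd ℂ) b).re} with hC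
  have hconv : Convex ℝ C := by
    intro x hx y hy s t hs ht hst
    have hx' : (1 - e ^ 2 / 2) * ‖x‖ < (x * (starRingEnd ℂ) b).re := hx
    have hy' : (1 - e ^ 2 / 2) * ‖y‖ < (y * (starRingEnd ℂ) b).re := hy
    show (1 - e ^ 2 / 2) * ‖s • x + t • y‖ < ((s • x + t • y) * (starRingEnd ℂ) b).re
    have h1 : ‖s • x + t • y‖ ≤ s * ‖x‖ + t * ‖y‖ := by
      refine (norm_add_le _ _).trans ?_
      rw [norm_smul, norm_smul, Real.norm_of_nonneg hs, Real.norm_of_nonneg ht]
    have h2 : ((s • x + t • y) * (starRingEnd ℂ) b).re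
        = s * (x * (starRingEnd ℂ) b).re + t * (y * (starRingEnd ℂ) b).re := by
      rw [add_mul, Complex.add_re, smul_mul_assoc, smul_mul_assoc, Complex.smul_re, Complex.smul_re]
      simp only [smul_eq_mul]
    rw [h2]
    have h3 : (1 - e ^ 2 / 2) * ‖s • x + t • y‖ ≤ (1 - e ^ 2 / 2) * (s * ‖x‖ + t * ‖y‖) :=
      mul_le_mul_of_nonneg_left h1 hk
    rcases hs.lt_or_eq with hs' | hs'
    · have h4 : s * ((1 - e ^ 2 / 2) * ‖x‖) < s * (x * (starRingEnd ℂ) b).re :=
        mul_lt_mul_of_pos_left hx' hs'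
      have h5 : t * ((1 - e ^ 2 / 2) * ‖y‖) ≤ t * (y * (starRingEnd ℂ) b).re :=
        mul_le_mul_of_nonneg_left hy'.le ht
      nlinarith
    · have ht' : 0 < t := by rw [← hs'] at hst; linarith
      have h5 : t * ((1 - e ^ 2 / 2) * ‖y‖) < t * (y * (starRingEnd ℂ) b).re :=
        mul_lt_mul_of_pos_left hy' ht'
      have h4 : s * ((1 - e ^ 2 / 2) * ‖x‖) ≤ s * (x * (starRingEnd ℂ) b).re :=
        mul_le_mul_of_nonneg_left hx'.le hs
      nlinarith
  have hne : ∀ w ∈ C, w ≠ 0 := by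
    intro w hw h0
    rw [h0] at hw
    have : (1 - e ^ 2 / 2) * ‖(0 : ℂ)‖ < ((0 : ℂ) * (starRingEnd ℂ) b).re := hw
    simp at this
  -- distance formula
  have hdist : ∀ w : ℂ, ‖w‖ = 1 → (‖w - b‖ < e ↔ w ∈ C) := by
    intro w hw
    have h1 : ‖w - b‖ ^ 2 = 2 - 2 * (w * (starRingEnd ℂ) b).re := by
      have := Complex.normSq_sub w b
      rw [Complex.normSq_eq_norm_sq, Complex.normSq_eq_norm_sq, Complex.normSq_eq_norm_sq, hw, hb]
        at this
      rw [this]
      ring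
    have h2 : ‖w - b‖ < e ↔ ‖w - b‖ ^ 2 < e ^ 2 :=
      (pow_lt_pow_iff_left₀ (norm_nonneg _) he0.le two_ne_zero).symm
    rw [h2, h1]
    show _ ↔ (1 - e ^ 2 / 2) * ‖w‖ < (w * (starRingEnd ℂ) b).re
    rw [hw]
    constructor <;> intro h <;> linarith
  have himg : {w : ℂ | ‖w‖ = 1 ∧ ‖w - b‖ < e} = (fun w : ℂ => w / (‖w‖ : ℂ)) '' C := by
    ext w
    constructor
    · rintro ⟨h1, h2⟩
      refine ⟨w, (hdist w h1).1 h2, ?_⟩
      show w / (‖w‖ : ℂ) = w
      rw [h1]
      simp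
    · rintro ⟨x, hx, rfl⟩
      have hx0 := hne x hx
      have hxn : 0 < ‖x‖ := norm_pos_iff.2 hx0
      have hn1 : ‖x / (‖x‖ : ℂ)‖ = 1 := by
        rw [norm_div, Complex.norm_real, Real.norm_eq_abs, abs_of_pos hxn, div_self hxn.ne']
      refine ⟨hn1, (hdist _ hn1).2 ?_⟩
      show (1 - e ^ 2 / 2) * ‖x / (‖x‖ : ℂ)‖ < ((x / (‖x‖ : ℂ)) * (starRingEnd ℂ) b).re
      rw [hn1, mul_one]
      have h2 : (x / (‖x‖ : ℂ)) * (starRingEnd ℂ) b = (x * (starRingEnd ℂ) b) / (‖x‖ : ℂ) := by ring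
      rw [h2, Complex.div_ofReal_re, lt_div_iff₀ hxn]
      exact hx
  rw [himg]
  refine hconv.isPreconnected.image _ ?_
  refine ContinuousOn.div continuousOn_id ?_ ?_
  · exact (Complex.continuous_ofReal.comp continuous_norm).continuousOn
  · intro w hw
    have := hne w hw
    exact_mod_cast (norm_pos_iff.2 this).ne'

/-- small disc pieces are connected -/
theorem disc_preconnected (b : ℂ) (e : ℝ) :
    IsPreconnected {w : ℂ | ‖w‖ < 1 ∧ ‖w - b‖ < e} := by
  have h : {w : ℂ | ‖w‖ < 1 ∧ ‖w - b‖ < e} = Metric.ball 0 1 ∩ Metric.ball b e := by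
    ext w
    simp only [Set.mem_ofPred_eq, Set.mem_inter_iff, Metric.mem_ball, dist_zero_right]
    rw [dist_eq_norm]
  rw [h]
  exact ((convex_ball (0 : ℂ) 1).inter (convex_ball b e)).isPreconnected

/-- chart around a point -/
noncomputable def chart (j0 : ZMod 5) (w : ZMod 5 → ℂ) : CP4 :=
  qm ⟨Function.update w j0 1, fun h => by
    have := congrFun h j0
    rw [Function.update_self] at this
    exact one_ne_zero this⟩

theorem continuous_chart (j0 : ZMod 5) : Continuous (chart j0) :=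
  continuous_qm.comp (Continuous.subtype_mk (continuous_id.update j0 continuous_const) _)

theorem chart_eq (j0 : ZMod 5) (v : ZMod 5 → ℂ) (hv : v ≠ 0) (h0 : v j0 ≠ 0) :
    chart j0 (fun j => v j / v j0) = CP4.mk v hv := by
  refine mk_eq_mk_of_smul _ _ _ _ (v j0)⁻¹ fun j => ?_
  show Function.update (fun j => v j / v j0) j0 1 j = _
  by_cases hj : j = j0
  · subst hj
    rw [Function.update_self, inv_mul_cancel₀ h0]
  · rw [Function.update_of_ne hj]
    rw [div_eq_inv_mul]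

/-- the open neighbourhood -/
def nbhd (j0 : ZMod 5) (a : ZMod 5 → ℂ) (e : ℝ) : Set CP4 :=
  {x | ∀ j, ‖x.rep j - a j * x.rep j0‖ < e * ‖x.rep j0‖}

theorem mem_nbhd_mk (j0 : ZMod 5) (a : ZMod 5 → ℂ) (e : ℝ) (v : ZMod 5 → ℂ) (hv : v ≠ 0) :
    CP4.mk v hv ∈ nbhd j0 a e ↔ ∀ j, ‖v j - a j * v j0‖ < e * ‖v j0‖ := by
  obtain ⟨c, hc, h⟩ := rep_mk v hv
  have hc' : 0 < ‖c‖ := norm_pos_iff.2 hc
  show (∀ j, ‖(CP4.mk v hv).rep j - a j * (CP4.mk v hv).rep j0‖
    < e * ‖(CP4.mk v hv).rep j0‖) ↔ _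
  refine forall_congr' fun j => ?_
  rw [h, h]
  have h1 : c * v j - a j * (c * v j0) = c * (v j - a j * v j0) := by ring
  rw [h1, norm_mul, norm_mul]
  have h2 : e * (‖c‖ * ‖v j0‖) = ‖c‖ * (e * ‖v j0‖) := by ring
  rw [h2]
  exact mul_lt_mul_iff_right₀ hc'

theorem isOpen_nbhd (j0 : ZMod 5) (a : ZMod 5 → ℂ) (e : ℝ) : IsOpen (nbhd j0 a e) := by
  rw [← isQuotientMap_qm.isOpen_preimage]
  have h : qm ⁻¹' nbhd j0 a e
      = ⋂ j, {v : {v : ZMod 5 → ℂ // v ≠ 0} | ‖v.1 j - a j * v.1 j0‖ < e * ‖v.1 j0‖} := by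
    ext v
    rw [Set.mem_preimage, Set.mem_iInter]
    exact mem_nbhd_mk j0 a e v.1 v.2
  rw [h]
  refine isOpen_iInter_of_finite fun j => ?_
  refine isOpen_lt ?_ ?_
  · exact continuous_norm.comp (((continuous_apply j).comp continuous_subtype_val).sub
      (continuous_const.mul ((continuous_apply j0).comp continuous_subtype_val)))
  · exact continuous_const.mul
      (continuous_norm.comp ((continuous_apply j0).comp continuous_subtype_val))

theorem t2 : T2Stmt := by
  intro I hI p hp U hU hpU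
  obtain ⟨j0, hj0⟩ := hI
  set v := p.rep with hvdef
  have hv : v ≠ 0 := rep_ne_zero p
  have hpv : CP4.mk v hv = p := mk_rep p
  rw [← hpv, mem_B_mk] at hp
  have hpos : 0 < ‖v j0‖ := pos_of_max v hv j0 (hp j0 hj0)
  have hv0 : v j0 ≠ 0 := norm_pos_iff.1 hpos
  set a : ZMod 5 → ℂ := fun j => v j / v j0 with ha
  have ha0 : a j0 = 1 := div_self hv0
  have hca : chart j0 a = p := by rw [← hpv]; exact chart_eq j0 v hv hv0
  have haI : ∀ i ∈ I, ‖a i‖ = 1 := by
    intro i hi
    show ‖v i / v j0‖ = 1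
    rw [norm_div, div_eq_one_iff_eq hpos.ne']
    exact le_antisymm (hp j0 hj0 i) (hp i hi j0)
  -- choose the radius
  have hopen : IsOpen (chart j0 ⁻¹' U) := hU.preimage (continuous_chart j0)
  have hmem : a ∈ chart j0 ⁻¹' U := by
    rw [Set.mem_preimage, hca]
    exact hpU
  obtain ⟨e', he', hball⟩ := Metric.isOpen_iff.1 hopen a hmem
  set e : ℝ := min e' 1 with hedef
  have he0 : 0 < e := lt_min he' one_pos
  have he1 : e ≤ 1 := min_le_right _ _
  have hee : e ≤ e' := min_le_left _ _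
  -- the box
  let S : ZMod 5 → Set ℂ := fun j =>
    if j ∈ I then {w | ‖w‖ = 1 ∧ ‖w - a j‖ < e} else {w | ‖w‖ < 1 ∧ ‖w - a j‖ < e}
  have hS : ∀ j, IsPreconnected (S j) := by
    intro j
    by_cases hj : j ∈ I
    · show IsPreconnected (if j ∈ I then _ else _)
      rw [if_pos hj]
      exact arc_preconnected (a j) (haI j hj) e he0 he1
    · show IsPreconnected (if j ∈ I then _ else _)
      rw [if_neg hj]
      exact disc_preconnected (a j) e
  have hSI : ∀ j w, j ∈ I → (w ∈ S j ↔ ‖w‖ = 1 ∧ ‖w - a j‖ < e) := by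
    intro j w hj
    show w ∈ (if j ∈ I then _ else _) ↔ _
    rw [if_pos hj]
    rfl
  have hSN : ∀ j w, j ∉ I → (w ∈ S j ↔ ‖w‖ < 1 ∧ ‖w - a j‖ < e) := by
    intro j w hj
    show w ∈ (if j ∈ I then _ else _) ↔ _
    rw [if_neg hj]
    rfl
  have hSe : ∀ j w, w ∈ S j → ‖w - a j‖ < e := by
    intro j w hw
    by_cases hj : j ∈ I
    · exact ((hSI j w hj).1 hw).2
    · exact ((hSN j w hj).1 hw).2
  refine ⟨nbhd j0 a e, chart j0 '' Set.univ.pi S, isOpen_nbhd j0 a e, ?_, ?_, ?_, ?_⟩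
  · rw [← hpv, mem_nbhd_mk]
    intro j
    have : v j - a j * v j0 = 0 := by
      show v j - v j / v j0 * v j0 = 0
      rw [div_mul_cancel₀ _ hv0, sub_self]
    rw [this, norm_zero]
    exact mul_pos he0 hpos
  · exact (isPreconnected_univ_pi hS).image _ (continuous_chart j0).continuousOn
  · rintro x ⟨hx1, hx2⟩
    have hu : x.rep ≠ 0 := rep_ne_zero x
    have hxu : CP4.mk x.rep hu = x := mk_rep x
    have hx1' : CP4.mk x.rep hu ∈ nbhd j0 a e := by rw [hxu]; exact hx1
    have hx2' : CP4.mk x.rep hu ∈ relB I := by rw [hxu]; exact hx2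
    rw [mem_nbhd_mk] at hx1'
    have hrel := relB_mk I j0 hj0 _ hu hx2'
    have hupos : 0 < ‖x.rep j0‖ := by
      refine pos_of_max _ hu j0 fun j => ?_
      by_cases hj : j ∈ I
      · exact (hrel.1 j hj).le
      · exact (hrel.2 j hj).le
    have hu0 : x.rep j0 ≠ 0 := norm_pos_iff.1 hupos
    refine ⟨fun j => x.rep j / x.rep j0, ?_, ?_⟩
    · intro j _
      have hd : ‖x.rep j / x.rep j0 - a j‖ < e := by
        have h1 : x.rep j / x.rep j0 - a j = (x.rep j - a j * x.rep j0) / x.rep j0 := by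
          rw [sub_div, mul_div_assoc, div_self hu0, mul_one]
        rw [h1, norm_div, div_lt_iff₀ hupos]
        exact hx1' j
      by_cases hj : j ∈ I
      · rw [hSI j _ hj]
        refine ⟨?_, hd⟩
        rw [norm_div, hrel.1 j hj, div_self hupos.ne']
      · rw [hSN j _ hj]
        refine ⟨?_, hd⟩
        rw [norm_div, div_lt_one hupos]
        exact hrel.2 j hj
    · rw [chart_eq j0 x.rep hu hu0]
      exact hxu
  · rintro x ⟨w, hw, rfl⟩
    have hw' : ∀ j, w j ∈ S j := fun j => hw j (Set.mem_univ j)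
    refine ⟨?_, ?_⟩
    · have : w ∈ Metric.ball a e' := by
        rw [Metric.mem_ball, dist_pi_lt_iff he']
        intro j
        rw [dist_eq_norm]
        exact (hSe j _ (hw' j)).trans_le hee
      exact hball this
    · refine mem_relB_of I j0 hj0 _ _ ?_ ?_
      · intro i hi
        show ‖Function.update w j0 1 i‖ = ‖Function.update w j0 1 j0‖
        rw [Function.update_self, norm_one]
        by_cases hij : i = j0
        · subst hij
          rw [Function.update_self, norm_one]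
        · rw [Function.update_of_ne hij]
          exact ((hSI i _ hi).1 (hw' i)).1
      · intro l hl
        show ‖Function.update w j0 1 l‖ < ‖Function.update w j0 1 j0‖
        rw [Function.update_self, norm_one]
        have hlj : l ≠ j0 := by
          rintro rfl
          exact hl hj0
        rw [Function.update_of_ne hlj]
        exact ((hSN l _ hl).1 (hw' l)).1

end Pool.H50.CP
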